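import Pool.Agent.Helper45.FG.St3

/-!
# Project FG, module SIR: size of a fusion ring with an object near a face, sharper form
-/

set_option autoImplicit false

namespace Pool.Agent.Helper92.FG

open Pool.Agent.Helper45.FG

/-- The numerical part: from `1 ≤ g (2x)^k`, `x² ≤ 2 g F²`, `g ≤ g0`, `g0² P ≤ C`. -/
private lemma numer (k : ℕ) (g g0 x F P C : ℝ) (hg : 0 < g) (hgg : g ≤ g0) (_hx : 0 ≤ x)
    (hF : 0 ≤ F) (hP : 0 ≤ P) (h1 : 1 ≤ g * (2 * x) ^ k) (h2 : x ^ 2 ≤ 2 * g * F ^ 2)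
    (h3 : g0 ^ 2 * P ≤ C) :
    P ^ (k + 2) ≤ 64 ^ k * C ^ (k + 2) * F ^ (4 * k) := by
  have hg0 : 0 ≤ g0 := hg.le.trans hgg
  have a1 : ((2 * x) ^ 2) ^ k ≤ (8 * g0 * F ^ 2) ^ k := by
    apply pow_le_pow_left₀ (by positivity)
    have : g * F ^ 2 ≤ g0 * F ^ 2 := mul_le_mul_of_nonneg_right hgg (by positivity)
    nlinarith
  have a2 : 1 ≤ g0 ^ 2 * (8 * g0 * F ^ 2) ^ k := by
    have b1 : 1 ≤ (g * (2 * x) ^ k) ^ 2 := one_le_pow₀ h1
    have b2 : (g * (2 * x) ^ k) ^ 2 = g ^ 2 * ((2 * x) ^ 2) ^ k := by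
      rw [mul_pow, pow_right_comm (2 * x) k 2]
    rw [b2] at b1
    calc (1 : ℝ) ≤ g ^ 2 * ((2 * x) ^ 2) ^ k := b1
      _ ≤ g0 ^ 2 * (8 * g0 * F ^ 2) ^ k :=
          mul_le_mul (pow_le_pow_left₀ hg.le hgg 2) a1 (by positivity) (by positivity)
  have a3 : 1 ≤ (g0 ^ 2 * (8 * g0 * F ^ 2) ^ k) ^ 2 := one_le_pow₀ a2
  have a4 : (g0 ^ 2 * (8 * g0 * F ^ 2) ^ k) ^ 2 = 64 ^ k * (g0 ^ 2) ^ (k + 2) * F ^ (4 * k) := by
    have e64 : (64 : ℝ) ^ k = 8 ^ k * 8 ^ k := by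
      rw [← mul_pow]
      norm_num
    have eF : F ^ (4 * k) = (F ^ 2) ^ k * (F ^ 2) ^ k := by
      rw [← mul_pow, ← pow_add, ← pow_mul]
    rw [e64, eF, mul_pow, mul_pow, mul_pow, mul_pow, pow_add (g0 ^ 2) k 2, pow_right_comm g0 2 k]
    ring
  rw [a4] at a3
  have hPk : 0 ≤ P ^ (k + 2) := by positivity
  calc P ^ (k + 2) = 1 * P ^ (k + 2) := (one_mul _).symm
    _ ≤ (64 ^ k * (g0 ^ 2) ^ (k + 2) * F ^ (4 * k)) * P ^ (k + 2) :=
        mul_le_mul_of_nonneg_right a3 hPk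
    _ = 64 ^ k * (g0 ^ 2 * P) ^ (k + 2) * F ^ (4 * k) := by
        rw [mul_pow]
        ring
    _ ≤ 64 ^ k * C ^ (k + 2) * F ^ (4 * k) := by
        apply mul_le_mul_of_nonneg_right _ (by positivity)
        apply mul_le_mul_of_nonneg_left _ (by positivity)
        exact pow_le_pow_left₀ (by positivity) h3 _

/-- A constituent moved by `s`, with gap at most the gap of the object. -/
private lemma constituent (hFGK : StFGK) (hFEX : StFEX) (K : IntermediateField ℚ ℝ)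
    (hfd : FiniteDimensional ℚ K) (β : K) (s : K ≃ₐ[ℚ] K)
    (hpos : 0 < (β : ℝ) - ((s β : K) : ℝ)) (I : Type) [Fintype I] (R : FusionRing I) (d : I → ℝ)
    (hd : IsDim R d) (n : I → ℕ) (hβ : (β : ℝ) = ∑ i, (n i : ℝ) * d i) :
    ∃ (i : I) (x : K), (x : ℝ) = d i ∧ 0 < (x : ℝ) - ((s x : K) : ℝ) ∧
      (x : ℝ) - ((s x : K) : ℝ) ≤ (β : ℝ) - ((s β : K) : ℝ) := by
  classical
  have hmem : ∀ i, n i ≠ 0 → d i ∈ K := by
    intro i hi
    refine hFGK K hfd I R d hd n ?_ i hi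
    rw [← hβ]
    exact β.2
  let x : I → K := fun i => if h : n i ≠ 0 then ⟨d i, hmem i h⟩ else 0
  have hx : ∀ i, n i ≠ 0 → ((x i : K) : ℝ) = d i := by
    intro i hi
    simp only [x, dif_pos hi]
  have hβK : β = ∑ i, (n i : K) * x i := by
    apply Subtype.ext
    rw [hβ]
    push_cast
    apply Finset.sum_congr rfl
    intro i _
    by_cases hi : n i = 0
    · rw [hi]
      simp
    · rw [hx i hi]
  have hsβ : s β = ∑ i, (n i : K) * s (x i) := by
    conv_lhs => rw [hβK]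
    rw [map_sum]
    apply Finset.sum_congr rfl
    intro i _
    rw [map_mul, map_natCast]
  have hdiff : (β : ℝ) - ((s β : K) : ℝ) =
      ∑ i, (n i : ℝ) * (((x i : K) : ℝ) - ((s (x i) : K) : ℝ)) := by
    have e1 : (β : ℝ) = ∑ i, (n i : ℝ) * ((x i : K) : ℝ) := by
      conv_lhs => rw [hβK]
      push_cast
      rfl
    have e2 : ((s β : K) : ℝ) = ∑ i, (n i : ℝ) * ((s (x i) : K) : ℝ) := by
      rw [hsβ]
      push_cast
      rfl
    rw [e1, e2, ← Finset.sum_sub_distrib]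
    apply Finset.sum_congr rfl
    intro i _
    ring
  have hnn : ∀ i, 0 ≤ (n i : ℝ) * (((x i : K) : ℝ) - ((s (x i) : K) : ℝ)) := by
    intro i
    by_cases hi : n i = 0
    · rw [hi]
      simp
    · have h := hFEX K hfd I R d hd s i (x i) (hx i hi)
      have h' := (abs_le.mp h).2
      have : (0 : ℝ) ≤ (n i : ℝ) := Nat.cast_nonneg _
      apply mul_nonneg this
      linarith
  rw [hdiff] at hpos
  obtain ⟨i, -, hi⟩ := Finset.exists_lt_of_sum_lt (s := Finset.univ)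
    (f := fun _ : I => (0 : ℝ))
    (g := fun i => (n i : ℝ) * (((x i : K) : ℝ) - ((s (x i) : K) : ℝ))) (by simpa using hpos)
  have hni : n i ≠ 0 := by
    intro h
    rw [h] at hi
    simp at hi
  have hn1 : (1 : ℝ) ≤ (n i : ℝ) := by
    exact_mod_cast Nat.one_le_iff_ne_zero.mpr hni
  have hgi : 0 < ((x i : K) : ℝ) - ((s (x i) : K) : ℝ) := by
    by_contra hcon
    have h0 : ((x i : K) : ℝ) - ((s (x i) : K) : ℝ) ≤ 0 := not_lt.mp hcon
    have : (n i : ℝ) * (((x i : K) : ℝ) - ((s (x i) : K) : ℝ)) ≤ 0 :=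
      mul_nonpos_of_nonneg_of_nonpos (by linarith) h0
    linarith
  refine ⟨i, x i, hx i hni, hgi, ?_⟩
  rw [hdiff]
  have h1 : (n i : ℝ) * (((x i : K) : ℝ) - ((s (x i) : K) : ℝ)) ≤
      ∑ i, (n i : ℝ) * (((x i : K) : ℝ) - ((s (x i) : K) : ℝ)) :=
    Finset.single_le_sum (f := fun i => (n i : ℝ) * (((x i : K) : ℝ) - ((s (x i) : K) : ℝ)))
      (fun j _ => hnn j) (Finset.mem_univ i)
  have h2 : ((x i : K) : ℝ) - ((s (x i) : K) : ℝ) ≤
      (n i : ℝ) * (((x i : K) : ℝ) - ((s (x i) : K) : ℝ)) :=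
    le_mul_of_one_le_left hgi.le hn1
  exact h2.trans h1

/-- SIR: size of a fusion ring with an object near a face, sharper form. -/
theorem hSIR (hFIN : StFIN) (hFGK : StFGK) (hFEX : StFEX) (hEXC : StEXC) (hNRO : StNRO)
    (hGAR : StGAR) : StSIR := by
  intro K hfd hgal hm β s B C hB hC hpos hgap I _ R d hd n hβ
  obtain ⟨i, x, hxi, hg, hgg⟩ := constituent hFGK hFEX K hfd β s hpos I R d hd n hβ
  obtain ⟨hone, hint, hge⟩ := hFIN I R d hd
  set F : ℝ := ∑ j, d j ^ 2 with hF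
  have hF0 : 0 ≤ F := by
    rw [hF]
    exact Finset.sum_nonneg fun j _ => sq_nonneg _
  have hxint : IsIntegral ℤ x := by
    have h := hint i
    rw [← hxi] at h
    exact (isIntegral_algebraMap_iff (A := K) (B := ℝ) (algebraMap K ℝ).injective).mp h
  have hsx : s x ≠ x := by
    intro h
    rw [h] at hg
    simp at hg
  have h1 := hNRO K hfd hgal x s hxint (fun t => hFEX K hfd I R d hd t i x hxi) hsx
  obtain ⟨χ, hχ1, hχm, hχe⟩ := hEXC K hfd I R d hd s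
  have hχi : χ i = (((s x : K) : ℝ) : ℂ) := hχe i x hxi
  have hχne : χ i ≠ (d i : ℂ) := by
    rw [hχi, ← hxi]
    intro h
    have h' : ((s x : K) : ℝ) = (x : ℝ) := Complex.ofReal_injective h
    rw [h'] at hg
    simp at hg
  have h2 := hGAR I R d hd χ hχ1 hχm i hχne
  rw [hχi, Complex.ofReal_re, ← hxi, ← hF] at h2
  have hx0 : 0 ≤ (x : ℝ) := by
    rw [hxi]
    exact (hd.pos i).le
  have hk : Module.finrank ℚ K + 1 = (Module.finrank ℚ K - 1) + 2 := by omega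
  have key := numer (Module.finrank ℚ K - 1) _ _ (x : ℝ) F (B ^ (Module.finrank ℚ K - 2)) C hg hgg
    hx0 hF0 (by positivity) h1 h2 hgap
  rw [← hk] at key
  calc B ^ ((Module.finrank ℚ K + 1) * (Module.finrank ℚ K - 2)) =
      (B ^ (Module.finrank ℚ K - 2)) ^ (Module.finrank ℚ K + 1) := by
        rw [← pow_mul, mul_comm]
    _ ≤ _ := key

end Pool.Agent.Helper92.FG
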