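import Pool.Agent.Helper10.FG.PSL

/-!
Factorizations of `PSL(2, q)`, `q` an odd prime, with a factor divisible by `(q - 1) / 2`.
-/

namespace Pool.Agent.Helper92.FG

open Matrix Pool.Agent.Helper10.FG
open scoped Pointwise

variable (q : ℕ) [hq : Fact q.Prime]

/-- matrices with first column `(x, 1)` -/
def colM (x y : ZMod q) : SpecialLinearGroup (Fin 2) (ZMod q) :=
  ⟨!![x, x * y - 1; 1, y], by rw [Matrix.det_fin_two_of]; ring⟩

/-- the Weyl element -/
def wM : SpecialLinearGroup (Fin 2) (ZMod q) :=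
  ⟨!![0, 1; -1, 0], by rw [Matrix.det_fin_two_of]; ring⟩

theorem wM_00 : (wM q) 0 0 = 0 := rfl
theorem wM_01 : (wM q) 0 1 = 1 := rfl
theorem wM_10 : (wM q) 1 0 = -1 := rfl
theorem wM_11 : (wM q) 1 1 = 0 := rfl

/-- the representatives in the torus factor -/
def cM (m : ℕ) (i : Fin m) : SpecialLinearGroup (Fin 2) (ZMod q) :=
  if (i : ℕ) < m - 1 then upper q 1 ((i : ℕ) : ZMod q) else wM q

/-- the second factor -/
def setA (v m : ℕ) : Set (SpecialLinearGroup (Fin 2) (ZMod q)) :=
  {a | a 1 0 = 1 ∧ ∃ j < v, a 0 0 = ((m * j : ℕ) : ZMod q)}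

theorem inv_11 (a : SpecialLinearGroup (Fin 2) (ZMod q)) : (a⁻¹) 1 1 = a 0 0 := by
  rw [SpecialLinearGroup.SL2_inv_expl]; rfl

theorem det_eq (a : SpecialLinearGroup (Fin 2) (ZMod q)) :
    a 0 0 * a 1 1 - a 0 1 * a 1 0 = 1 := by
  have hdet : (a : Matrix (Fin 2) (Fin 2) (ZMod q)).det = 1 := a.2
  rw [Matrix.det_fin_two] at hdet
  exact hdet

theorem eq_colM (a : SpecialLinearGroup (Fin 2) (ZMod q)) (h : a 1 0 = 1) :
    colM q (a 0 0) (a 1 1) = a := by
  have hdet := det_eq q a
  rw [h, mul_one] at hdet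
  refine ext2 q _ _ rfl ?_ h.symm rfl
  change a 0 0 * a 1 1 - 1 = a 0 1
  linear_combination hdet

theorem ncard_setA (v m : ℕ) : (setA q v m).ncard ≤ q * v := by
  have h1 : setA q v m ⊆ Set.range (fun p : ZMod q × Fin v =>
      colM q (((m * (p.2 : ℕ) : ℕ) : ZMod q)) p.1) := by
    rintro a ⟨h, j, hj, h2⟩
    refine ⟨(a 1 1, ⟨j, hj⟩), ?_⟩
    simp only
    rw [← h2, eq_colM q a h]
  refine (Set.ncard_le_ncard h1 (Set.finite_range _)).trans ?_
  rw [← Set.image_univ]
  refine (Set.ncard_image_le Set.finite_univ).trans ?_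
  rw [Set.ncard_univ, Nat.card_prod, Nat.card_zmod, Nat.card_fin]

theorem upper_inv_mul_00 (u : (ZMod q)ˣ) (x : ZMod q)
    (g : SpecialLinearGroup (Fin 2) (ZMod q)) :
    ((upper q u x)⁻¹ * g) 0 0 = ((u⁻¹ : (ZMod q)ˣ) : ZMod q) * g 0 0 - x * g 1 0 := by
  rw [mul_apply2, inv_00, inv_01, upper_11, upper_01]
  ring

theorem upper_inv_mul_10 (u : (ZMod q)ˣ) (x : ZMod q)
    (g : SpecialLinearGroup (Fin 2) (ZMod q)) :
    ((upper q u x)⁻¹ * g) 1 0 = (u : ZMod q) * g 1 0 := by
  rw [mul_apply2, inv_10, inv_11, upper_10, upper_00]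
  ring

theorem wM_inv_mul_00 (g : SpecialLinearGroup (Fin 2) (ZMod q)) :
    ((wM q)⁻¹ * g) 0 0 = - g 1 0 := by
  rw [mul_apply2, inv_00, inv_01, wM_11, wM_01]
  ring

theorem wM_inv_mul_10 (g : SpecialLinearGroup (Fin 2) (ZMod q)) :
    ((wM q)⁻¹ * g) 1 0 = g 0 0 := by
  rw [mul_apply2, inv_10, inv_11, wM_10, wM_00]
  ring

/-- the covering: `SL(2, q) = D C A` -/
theorem cover (v m : ℕ) (hm : 2 ≤ m) (hvm : v * m = q + 1)
    (g : SpecialLinearGroup (Fin 2) (ZMod q)) :
    ∃ (u : (ZMod q)ˣ) (i : Fin m), (cM q m i)⁻¹ * ((upper q u 0)⁻¹ * g) ∈ setA q v m := by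
  have hv : 0 < v := by
    rcases Nat.eq_zero_or_pos v with h | h
    · rw [h] at hvm; omega
    · exact h
  have hdet := det_eq q g
  have hlast : cM q m ⟨m - 1, by omega⟩ = wM q := by simp [cM]
  by_cases hy : g 1 0 = 0
  · -- the first column is on the first axis
    have hx : g 0 0 ≠ 0 := by
      intro h
      rw [h, hy] at hdet
      simp at hdet
    refine ⟨Units.mk0 _ hx, ⟨m - 1, by omega⟩, ?_⟩
    rw [hlast]
    refine ⟨?_, 0, hv, ?_⟩
    · rw [wM_inv_mul_10, upper_inv_mul_00, zero_mul, sub_zero, Units.val_inv_eq_inv_val,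
        Units.val_mk0, inv_mul_cancel₀ hx]
    · rw [wM_inv_mul_00, upper_inv_mul_10, hy]
      simp
  · set z : ZMod q := g 0 0 * g 1 0 with hz
    have hN : z.val < q := ZMod.val_lt z
    have hNz : ((z.val : ℕ) : ZMod q) = z := ZMod.natCast_zmod_val z
    have hdm : m * (z.val / m) + z.val % m = z.val := Nat.div_add_mod _ _
    have hmod : z.val % m < m := Nat.mod_lt _ (by omega)
    by_cases hi : z.val % m < m - 1
    · -- the translations
      refine ⟨Units.mk0 _ (inv_ne_zero hy), ⟨z.val % m, hmod⟩, ?_⟩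
      have hc : cM q m ⟨z.val % m, hmod⟩ = upper q 1 ((z.val % m : ℕ) : ZMod q) := by
        simp only [cM, if_pos hi]
      rw [hc]
      have hu : (((Units.mk0 _ (inv_ne_zero hy) : (ZMod q)ˣ)⁻¹ : (ZMod q)ˣ) : ZMod q) =
          g 1 0 := by
        rw [Units.val_inv_eq_inv_val, Units.val_mk0, inv_inv]
      have h10 : ((upper q (Units.mk0 _ (inv_ne_zero hy)) 0)⁻¹ * g) 1 0 = 1 := by
        rw [upper_inv_mul_10, Units.val_mk0, inv_mul_cancel₀ hy]
      have h00 : ((upper q (Units.mk0 _ (inv_ne_zero hy)) 0)⁻¹ * g) 0 0 = z := by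
        rw [upper_inv_mul_00, hu, zero_mul, sub_zero, hz, mul_comm]
      refine ⟨?_, z.val / m, ?_, ?_⟩
      · rw [upper_inv_mul_10, h10, Units.val_one, one_mul]
      · rw [Nat.div_lt_iff_lt_mul (by omega)]
        omega
      · rw [upper_inv_mul_00, h10, h00, inv_one, Units.val_one, one_mul, mul_one]
        have h3 : z = ((m * (z.val / m) : ℕ) : ZMod q) + ((z.val % m : ℕ) : ZMod q) := by
          rw [← Nat.cast_add, hdm, hNz]
        linear_combination h3
    · -- the Weyl element
      have hmodeq : z.val % m = m - 1 := by omega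
      have hz0 : z ≠ 0 := by
        intro h
        rw [h] at hmodeq
        simp at hmodeq
        omega
      have hx : g 0 0 ≠ 0 := by
        intro h
        rw [hz, h, zero_mul] at hz0
        exact hz0 rfl
      refine ⟨Units.mk0 _ hx, ⟨m - 1, by omega⟩, ?_⟩
      rw [hlast]
      have hlt : z.val / m < v := by
        rw [Nat.div_lt_iff_lt_mul (by omega)]
        omega
      refine ⟨?_, v - 1 - z.val / m, by
        generalize z.val / m = J at hlt
        omega, ?_⟩
      · rw [wM_inv_mul_10, upper_inv_mul_00, zero_mul, sub_zero, Units.val_inv_eq_inv_val,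
          Units.val_mk0, inv_mul_cancel₀ hx]
      · rw [wM_inv_mul_00, upper_inv_mul_10, Units.val_mk0, ← hz]
        have h1 : z.val + m * (v - 1 - z.val / m) = q := by
          obtain ⟨t, ht⟩ : ∃ t, v = z.val / m + 1 + t := Nat.exists_eq_add_of_le hlt
          have h2 : v - 1 - z.val / m = t := by
            rw [ht]
            generalize z.val / m = J
            omega
          rw [h2]
          have h3 : v * m = (z.val / m + 1 + t) * m := by rw [← ht]
          have h4 : (z.val / m + 1 + t) * m = m * (z.val / m) + m + m * t := by ring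
          have h5 : z.val + 1 = m * (z.val / m) + m := by
            generalize m * (z.val / m) = J at hdm ⊢
            omega
          generalize m * (z.val / m) = J at h4 h5
          generalize m * t = J2 at h4 ⊢
          omega
        have h2 : z + ((m * (v - 1 - z.val / m) : ℕ) : ZMod q) = 0 := by
          have h3 := congrArg (fun n : ℕ => (n : ZMod q)) h1
          simp only [Nat.cast_add, hNz, ZMod.natCast_self] at h3
          exact h3
        exact neg_eq_of_add_eq_zero_right h2

/-- the torus factor -/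
theorem torus_tiling (h2 : q ≠ 2) (v m : ℕ) (hm : 2 ≤ m) (hvm : v * m = q + 1)
    (hcard : (q - 1) / 2 * m * (q * v) =
      Nat.card (ProjectiveSpecialLinearGroup (Fin 2) (ZMod q))) :
    Realised (ProjectiveSpecialLinearGroup (Fin 2) (ZMod q)) ((q - 1) / 2 * m) (q * v) := by
  have hodd : Odd q := hq.out.odd_of_ne_two h2
  obtain ⟨c, hc⟩ := hodd
  have hq2 : 2 ∣ q - 1 := ⟨c, by omega⟩
  have hD : Nat.card ((torusK q (q - 1)).map (proj q)) = (q - 1) / 2 := by
    have h := card_map_proj q h2 (torusK q (q - 1)) (center_le q _ hq2)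
    rw [card_torusK q _ dvd_rfl] at h
    omega
  refine realised_of_le (((torusK q (q - 1)).map (proj q) : Set _) *
    (Set.range fun i : Fin m => proj q (cM q m i))) (proj q '' setA q v m) _ _ hcard ?_ ?_ ?_
  · refine (ncard_mul_le _ _).trans (Nat.mul_le_mul (le_of_eq hD) ?_)
    rw [← Set.image_univ]
    refine (Set.ncard_image_le Set.finite_univ).trans ?_
    rw [Set.ncard_univ, Nat.card_fin]
  · exact (Set.ncard_image_le (Set.toFinite _)).trans (ncard_setA q v m)
  · apply Set.eq_univ_of_forall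
    intro x
    obtain ⟨g, rfl⟩ := QuotientGroup.mk'_surjective _ x
    obtain ⟨u, i, h⟩ := cover q v m hm hvm g
    refine Set.mem_mul.mpr ⟨proj q (upper q u 0) * proj q (cM q m i), ?_,
      proj q ((cM q m i)⁻¹ * ((upper q u 0)⁻¹ * g)), ⟨_, h, rfl⟩, ?_⟩
    · refine Set.mul_mem_mul ?_ ⟨i, rfl⟩
      refine ⟨upper q u 0, ⟨upper_10 q _ _, upper_01 q _ _, ?_⟩, rfl⟩
      rw [upper_00]
      exact ZMod.pow_card_sub_one_eq_one u.ne_zero
    · rw [map_mul, map_mul, map_inv, map_inv]
      change _ * _ * _ = (proj q) g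
      group

/-- subgroups of the nonsplit torus -/
theorem nonsplit (d : ℕ) (hd : 2 * d ∣ q + 1) (h2 : q ≠ 2) :
    ∃ K : Subgroup (ProjectiveSpecialLinearGroup (Fin 2) (ZMod q)), Nat.card K = d := by
  classical
  have hd0 : d ≠ 0 := by
    rintro rfl
    simp at hd
  have : NeZero (2 * d) := ⟨by omega⟩
  let K := GaloisField q 2
  have hfin : Module.finrank (ZMod q) K = 2 := GaloisField.finrank q (by norm_num)
  let b : Module.Basis (Fin 2) (ZMod q) K := Module.finBasisOfFinrankEq (ZMod q) K hfin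
  have hKcard : Nat.card K = q ^ 2 := GaloisField.card q 2 (by norm_num)
  have : Finite K := Nat.finite_of_card_ne_zero (by rw [hKcard]; exact pow_ne_zero _ hq.out.ne_zero)
  have hqpos := hq.out.two_le
  have hexp : (Nat.card K - 1) / (Nat.card (ZMod q) - 1) = q + 1 := by
    rw [hKcard, Nat.card_zmod]
    have : q ^ 2 - 1 = (q + 1) * (q - 1) := by
      have := Nat.sq_sub_sq q 1
      simpa using this
    rw [this]
    exact Nat.mul_div_cancel _ (by omega)
  have hnorm : ∀ x : K, x ^ (2 * d) = 1 → Algebra.norm (ZMod q) x = 1 := by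
    intro x hx
    apply (algebraMap (ZMod q) K).injective
    rw [FiniteField.algebraMap_norm_eq_pow, hexp, map_one]
    obtain ⟨e, he⟩ := hd
    rw [he, pow_mul, hx, one_pow]
  have hdet : ∀ x : rootsOfUnity (2 * d) K,
      (Algebra.leftMulMatrix b ((x : Kˣ) : K)).det = 1 := by
    intro x
    rw [← Algebra.norm_eq_matrix_det]
    exact hnorm _ ((mem_rootsOfUnity' _ _).mp x.2)
  let f : rootsOfUnity (2 * d) K →* SpecialLinearGroup (Fin 2) (ZMod q) :=
    { toFun := fun x => ⟨Algebra.leftMulMatrix b ((x : Kˣ) : K), hdet x⟩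
      map_one' := by
        apply Subtype.ext
        simp
      map_mul' := by
        intro x y
        apply Subtype.ext
        simp }
  have hf : Function.Injective f := by
    intro x y hxy
    have h1 := congrArg Subtype.val hxy
    have h2 := Algebra.leftMulMatrix_injective b h1
    exact Subtype.ext (Units.ext h2)
  have hroots : Nat.card (rootsOfUnity (2 * d) K) = 2 * d := by
    obtain ⟨g, hg⟩ := IsCyclic.exists_generator (α := Kˣ)
    have hord : orderOf g = q ^ 2 - 1 := by
      rw [orderOf_eq_card_of_forall_mem_zpowers hg, Nat.card_units, hKcard]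
    have hdvd : 2 * d ∣ q ^ 2 - 1 := by
      have : q ^ 2 - 1 = (q + 1) * (q - 1) := by
        have := Nat.sq_sub_sq q 1
        simpa using this
      rw [this]
      exact Dvd.dvd.mul_right hd _
    obtain ⟨c, hc⟩ := hdvd
    have hpos : 0 < q ^ 2 - 1 := by
      have : 1 < q ^ 2 := Nat.one_lt_pow (by norm_num) (by omega)
      omega
    have hprim : IsPrimitiveRoot (g ^ c) (2 * d) := by
      have h1 : IsPrimitiveRoot g (q ^ 2 - 1) := hord ▸ IsPrimitiveRoot.orderOf g
      exact h1.pow hpos (by rw [hc]; ring)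
    exact hprim.card_rootsOfUnity'
  have hcent : Subgroup.center (SpecialLinearGroup (Fin 2) (ZMod q)) ≤ f.range := by
    intro g hg
    rw [Matrix.SpecialLinearGroup.mem_center_iff] at hg
    obtain ⟨r, hr, hg⟩ := hg
    rw [Fintype.card_fin] at hr
    have hr0 : r ≠ 0 := by
      rintro rfl
      simp at hr
    have hx : Units.mk0 (algebraMap (ZMod q) K r) (by simpa using hr0) ∈
        rootsOfUnity (2 * d) K := by
      rw [mem_rootsOfUnity', Units.val_mk0, ← map_pow, pow_mul, hr, one_pow, map_one]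
    refine ⟨⟨_, hx⟩, ?_⟩
    apply Subtype.ext
    change Algebra.leftMulMatrix b (algebraMap (ZMod q) K r) = _
    rw [AlgHom.commutes, ← hg]
    rfl
  refine ⟨f.range.map (proj q), ?_⟩
  have h := card_map_proj q h2 f.range hcent
  have h3 : Nat.card f.range = 2 * d :=
    (Nat.card_congr (MonoidHom.ofInjective hf).toEquiv).symm.trans hroots
  omega

/-- the order of `PSL(2, q)` -/
theorem card_psl (h2 : q ≠ 2) :
    Nat.card (ProjectiveSpecialLinearGroup (Fin 2) (ZMod q)) = q * ((q - 1) / 2) * (q + 1) := by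
  have hodd : Odd q := hq.out.odd_of_ne_two h2
  obtain ⟨c, hc⟩ := hodd
  have hq1 : q - 1 = 2 * c := by omega
  have h := card_map_proj q h2 (borelK q (q - 1))
    ((center_le q _ ⟨c, hq1⟩).trans (torusK_le q _))
  rw [card_borelK q (q - 1) dvd_rfl] at h
  have h3 := ((borelK q (q - 1)).map (proj q)).index_mul_card
  rw [index_map_borel] at h3
  have h4 : Nat.card ((borelK q (q - 1)).map (proj q)) = q * ((q - 1) / 2) := by
    have h5 : (q - 1) / 2 = c := by omega
    rw [h5]
    rw [hq1] at h ⊢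
    have : 2 * Nat.card ((borelK q (2 * c)).map (proj q)) = 2 * (q * c) := by rw [h]; ring
    omega
  rw [h4] at h3
  rw [← h3]
  ring

/-- the case `q ∣ b`, `(q - 1) / 2 ∣ a` -/
theorem mixed (h2 : q ≠ 2) (a b : ℕ)
    (hab : a * b = Nat.card (ProjectiveSpecialLinearGroup (Fin 2) (ZMod q)))
    (ha : (q - 1) / 2 ∣ a) (hb : q ∣ b) :
    Realised (ProjectiveSpecialLinearGroup (Fin 2) (ZMod q)) a b := by
  have hqpos := hq.out.two_le
  have hodd : Odd q := hq.out.odd_of_ne_two h2
  obtain ⟨c, hc⟩ := hodd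
  obtain ⟨m, rfl⟩ := ha
  obtain ⟨v, rfl⟩ := hb
  have hcard := card_psl q h2
  have hr : 0 < (q - 1) / 2 := by omega
  have hvm : v * m = q + 1 := by
    rw [hcard] at hab
    have : (q * ((q - 1) / 2)) * (v * m) = (q * ((q - 1) / 2)) * (q + 1) := by
      rw [← hab]; ring
    exact Nat.eq_of_mul_eq_mul_left (by positivity) this
  rcases Nat.lt_or_ge m 2 with hm | hm
  · have hm1 : m = 1 := by
      rcases Nat.eq_zero_or_pos m with h | h
      · rw [h] at hvm; omega
      · omega
    subst hm1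
    have hD : Nat.card ((torusK q (q - 1)).map (proj q)) = (q - 1) / 2 := by
      have h := card_map_proj q h2 (torusK q (q - 1)) (center_le q _ ⟨c, by omega⟩)
      rw [card_torusK q _ dvd_rfl] at h
      omega
    exact (realised_of_card ((torusK q (q - 1)).map (proj q)) (by rw [← hab]; ring)
      (by rw [hD]; ring)).symm
  · exact torus_tiling q h2 v m hm hvm hab

/-- the case `q (q - 1) / 2 ∣ a` -/
theorem unmixed (h2 : q ≠ 2) (a b : ℕ)
    (hab : a * b = Nat.card (ProjectiveSpecialLinearGroup (Fin 2) (ZMod q)))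
    (ha : (q - 1) / 2 ∣ a) (hb : q ∣ a) :
    Realised (ProjectiveSpecialLinearGroup (Fin 2) (ZMod q)) a b := by
  have hqpos := hq.out.two_le
  have hodd : Odd q := hq.out.odd_of_ne_two h2
  obtain ⟨c, hc⟩ := hodd
  have hcard := card_psl q h2
  have hc2 : (q - 1) / 2 = c := by omega
  have hr : 0 < (q - 1) / 2 := by omega
  have hcop : Nat.Coprime q ((q - 1) / 2) := by
    rw [hq.out.coprime_iff_not_dvd]
    intro h
    have := Nat.le_of_dvd hr h
    omega
  obtain ⟨a', rfl⟩ := hcop.mul_dvd_of_dvd_of_dvd hb ha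
  have hvm : a' * b = q + 1 := by
    rw [hcard] at hab
    have : (q * ((q - 1) / 2)) * (a' * b) = (q * ((q - 1) / 2)) * (q + 1) := by
      rw [← hab]; ring
    exact Nat.eq_of_mul_eq_mul_left (by positivity) this
  have hq2 : q + 1 = 2 * (c + 1) := by omega
  by_cases hbd : b ∣ c + 1
  · obtain ⟨K, hK⟩ := nonsplit q b (by rw [hq2]; exact Nat.mul_dvd_mul_left 2 hbd) h2
    exact realised_of_card K hab hK
  · -- `b` is even and `b / 2` divides `(q + 1) / 2`
    have hbe : 2 ∣ b := by
      by_contra hne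
      apply hbd
      have hcop2 : Nat.Coprime b 2 := by
        rw [Nat.coprime_comm]
        exact (Nat.Prime.coprime_iff_not_dvd Nat.prime_two).mpr hne
      have : b ∣ 2 * (c + 1) := by rw [← hq2, ← hvm]; exact Dvd.intro_left _ rfl
      exact hcop2.dvd_of_dvd_mul_left this
    obtain ⟨e, rfl⟩ := hbe
    obtain ⟨K, hK⟩ := nonsplit q e (by rw [← hvm]; exact Dvd.intro_left _ rfl) h2
    have hidx := K.index_mul_card
    rw [hK, ← hab] at hidx
    have he : 0 < e := by
      rcases Nat.eq_zero_or_pos e with h | h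
      · rw [h] at hvm; omega
      · exact h
    have hidx2 : K.index = 2 * (q * ((q - 1) / 2) * a') := by
      apply Nat.eq_of_mul_eq_mul_right he
      rw [hidx]; ring
    have h := doubling_simple K ⟨q * ((q - 1) / 2) * a', by rw [hidx2]; ring⟩
    rw [hidx2, hK] at h
    rwa [Nat.mul_div_cancel_left _ (by norm_num)] at h

theorem main (h2 : q ≠ 2) (a b : ℕ)
    (hab : a * b = Nat.card (ProjectiveSpecialLinearGroup (Fin 2) (ZMod q)))
    (h : (q - 1) / 2 ∣ a ∨ (q - 1) / 2 ∣ b) :
    Realised (ProjectiveSpecialLinearGroup (Fin 2) (ZMod q)) a b := by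
  have hcard := card_psl q h2
  have hqab : q ∣ a * b := by
    rw [hab, hcard, mul_assoc]
    exact Dvd.intro _ rfl
  rcases hq.out.dvd_mul.mp hqab with hqa | hqb
  · rcases h with ha | hb
    · exact unmixed q h2 a b hab ha hqa
    · exact (mixed q h2 b a (by rw [mul_comm]; exact hab) hb hqa).symm
  · rcases h with ha | hb
    · exact mixed q h2 a b hab ha hqb
    · exact (unmixed q h2 b a (by rw [mul_comm]; exact hab) hb hqb).symm

end Pool.Agent.Helper92.FG
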